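import Pool.Agent.H8.Pc3

namespace Pool.Agent.Results.MP_b374f8_co.Count

open Pool.Agent.H8.Pc

theorem result (n : ℕ) :
    Nat.card {π : Equiv.Perm (Fin (n + 1)) // ¬ Contains π} = (level n).length :=
  main n

end Pool.Agent.Results.MP_b374f8_co.Count
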